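import Pool.Agent.H63.Conj.Rank

set_option autoImplicit false
open MeasureTheory Set Filter Topology
open scoped ENNReal

namespace Pool.Agent.H63.Conj

/-- Enumeration of the tests `(i, q)`: is `T^i y ≤ q`? -/
noncomputable def nu : ℕ ≃ ℤ × ℚ := (Denumerable.eqv (ℤ × ℚ)).symm

/-- Integer powers. -/
noncomputable def itr (T : E) (i : ℤ) : ℝ → ℝ := ⇑((T.1.toEquiv : Equiv.Perm ℝ) ^ i)

theorem itr_zero (T : E) (y : ℝ) : itr T 0 y = y := by
  simp [itr]

theorem itr_add_one (T : E) (i : ℤ) (y : ℝ) : itr T i (T.1 y) = itr T (i + 1) y := by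
  simp only [itr]
  rw [zpow_add_one]
  rfl

theorem itr_sub_one (T : E) (i : ℤ) (y : ℝ) : itr T i (T.1.symm y) = itr T (i - 1) y := by
  simp only [itr]
  rw [zpow_sub_one]
  rfl

theorem measurable_itr (T : E) (i : ℤ) : Measurable (itr T i) := by
  induction i using Int.induction_on with
  | zero =>
    have : itr T 0 = id := by funext y; exact itr_zero T y
    rw [this]
    exact measurable_id
  | succ n ih =>
    have : itr T ((n : ℤ) + 1) = itr T n ∘ T.1 := by
      funext y; exact (itr_add_one T n y).symm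
    rw [this]
    exact ih.comp T.1.measurable
  | pred n ih =>
    have : itr T (-(n : ℤ) - 1) = itr T (-(n : ℤ)) ∘ T.1.symm := by
      funext y; exact (itr_sub_one T _ y).symm
    rw [this]
    exact ih.comp T.1.symm.measurable

/-- The code of a point: the answers to all the tests along its orbit. -/
noncomputable def code (T : E) (y : ℝ) (j : ℕ) : Bool := decide (itr T (nu j).1 y ≤ ((nu j).2 : ℝ))

/-- Shifting the tests along the orbit. -/
noncomputable def shift (s : ℤ) (j : ℕ) : ℕ := nu.symm ((nu j).1 + s, (nu j).2)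

theorem code_apply (T : E) (y : ℝ) (j : ℕ) : code T (T.1 y) j = code T y (shift 1 j) := by
  simp only [code, shift, Equiv.apply_symm_apply, itr_add_one]

theorem code_symm_apply (T : E) (y : ℝ) (j : ℕ) :
    code T (T.1.symm y) j = code T y (shift (-1) j) := by
  simp only [code, shift, Equiv.apply_symm_apply, itr_sub_one]
  rfl

/-- The standard real coding of binary sequences. -/
noncomputable abbrev cf (x : ℕ → Bool) : ℝ := Cardinal.cantorFunction (1/3) x

/-- The real code of a point. -/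
noncomputable def rc (T : E) (y : ℝ) : ℝ := cf (code T y)

theorem code_injective (T : E) : Function.Injective (code T) := by
  intro y z h
  have h1 : ∀ q : ℚ, (y ≤ q ↔ z ≤ q) := by
    intro q
    have := congrFun h (nu.symm (0, q))
    simp only [code, Equiv.apply_symm_apply, itr_zero, decide_eq_decide] at this
    exact this
  by_contra hne
  rcases lt_or_gt_of_ne hne with h2 | h2
  · obtain ⟨q, hq1, hq2⟩ := exists_rat_btwn h2
    exact absurd ((h1 q).mp hq1.le) (not_le.mpr hq2)
  · obtain ⟨q, hq1, hq2⟩ := exists_rat_btwn h2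
    exact absurd ((h1 q).mpr hq1.le) (not_le.mpr hq2)

theorem rc_injective (T : E) : Function.Injective (rc T) :=
  (Cardinal.cantorFunction_injective (by norm_num) (by norm_num)).comp (code_injective T)

theorem measurableSet_code (T : E) (j : ℕ) : MeasurableSet {y | code T y j = true} := by
  have : {y | code T y j = true} = (itr T (nu j).1) ⁻¹' Iic ((nu j).2 : ℝ) := by
    ext y
    simp [code]
  rw [this]
  exact measurable_itr T _ measurableSet_Iic

theorem measurable_code (T : E) (j : ℕ) : Measurable (fun y => code T y j) :=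
  measurable_to_bool (measurableSet_code T j)

theorem rc_measurable (T : E) : Measurable (rc T) := by
  have h1 : ∀ j, Measurable (fun y => Cardinal.cantorFunctionAux (1/3) (code T y) j) := by
    intro j
    have : (fun y => Cardinal.cantorFunctionAux (1/3) (code T y) j) =
      (fun b : Bool => cond b ((1/3 : ℝ) ^ j) 0) ∘ (fun y => code T y j) := rfl
    rw [this]
    exact (measurable_of_countable _).comp (measurable_code T j)
  have h2 : ∀ n, Measurable (fun y => ∑ j ∈ Finset.range n,
      Cardinal.cantorFunctionAux (1/3) (code T y) j) := by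
    intro n
    exact Finset.measurable_fun_sum _ (fun j _ => h1 j)
  refine measurable_of_tendsto_metrizable h2 ?_
  rw [tendsto_pi_nhds]
  intro y
  exact (Cardinal.summable_cantor_function (code T y) (by norm_num) (by norm_num)).hasSum.tendsto_sum_nat

/-- Extension of a word by zeros. -/
def ext0 {n : ℕ} (w : Fin n → Bool) (j : ℕ) : Bool := if h : j < n then w ⟨j, h⟩ else false
/-- Extension of a word by ones. -/
def ext1 {n : ℕ} (w : Fin n → Bool) (j : ℕ) : Bool := if h : j < n then w ⟨j, h⟩ else true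

theorem cf_ext0_le {n : ℕ} {w : Fin n → Bool} {x : ℕ → Bool} (h : ∀ j : Fin n, x j = w j) :
    cf (ext0 w) ≤ cf x := by
  apply Cardinal.cantorFunction_le (by norm_num) (by norm_num)
  intro m hm
  unfold ext0 at hm
  split_ifs at hm with hmn
  · rw [h ⟨m, hmn⟩]; exact hm

theorem le_cf_ext1 {n : ℕ} {w : Fin n → Bool} {x : ℕ → Bool} (h : ∀ j : Fin n, x j = w j) :
    cf x ≤ cf (ext1 w) := by
  apply Cardinal.cantorFunction_le (by norm_num) (by norm_num)
  intro m hm
  unfold ext1
  split_ifs with hmn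
  · rw [← h ⟨m, hmn⟩]; exact hm
  · rfl

theorem cf_disjoint {n : ℕ} {w w' : Fin n → Bool} (h : w ≠ w') :
    cf (ext1 w) < cf (ext0 w') ∨ cf (ext1 w') < cf (ext0 w) := by
  classical
  have hex : ∃ m : ℕ, ∃ hm : m < n, w ⟨m, hm⟩ ≠ w' ⟨m, hm⟩ := by
    by_contra hcon
    push Not at hcon
    apply h
    funext j
    exact hcon j.1 j.2
  set m := Nat.find hex with hmdef
  obtain ⟨hmn, hne⟩ := Nat.find_spec hex
  have hmin : ∀ k < m, ∀ hk : k < n, w ⟨k, hk⟩ = w' ⟨k, hk⟩ := by
    intro k hk hkn
    by_contra hcon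
    exact Nat.find_min hex hk ⟨hkn, hcon⟩
  have aux : ∀ (u v : Fin n → Bool), (∀ k < m, ∀ hk : k < n, u ⟨k, hk⟩ = v ⟨k, hk⟩) →
      u ⟨m, hmn⟩ = false → v ⟨m, hmn⟩ = true → cf (ext1 u) < cf (ext0 v) := by
    intro u v huv hu hv
    apply Cardinal.increasing_cantorFunction (by norm_num) (by norm_num) (n := m)
    · intro k hk
      have hkn : k < n := lt_trans hk hmn
      simp only [ext1, ext0, hkn, dif_pos]
      exact huv k hk hkn
    · unfold ext1
      rw [dif_pos hmn]
      exact hu
    · unfold ext0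
      rw [dif_pos hmn]
      exact hv
  cases hw : w ⟨m, hmn⟩ with
  | false =>
    left
    apply aux w w' hmin hw
    cases hw' : w' ⟨m, hmn⟩ with
    | false => exact absurd (hw.trans hw'.symm) hne
    | true => rfl
  | true =>
    right
    apply aux w' w (fun k hk hkn => (hmin k hk hkn).symm) _ hw
    cases hw' : w' ⟨m, hmn⟩ with
    | false => rfl
    | true => exact absurd (hw.trans hw'.symm) hne

theorem agree_of_mem {n : ℕ} {w : Fin n → Bool} {x : ℕ → Bool}
    (h : cf x ∈ Icc (cf (ext0 w)) (cf (ext1 w))) : ∀ j : Fin n, x j = w j := by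
  by_contra hcon
  have hne : (fun j : Fin n => x j) ≠ w := fun h' => hcon (fun j => congrFun h' j)
  have h1 := cf_ext0_le (w := fun j : Fin n => x j) (x := x) (fun j => rfl)
  have h2 := le_cf_ext1 (w := fun j : Fin n => x j) (x := x) (fun j => rfl)
  rcases cf_disjoint hne with h3 | h3
  · linarith [h.1]
  · linarith [h.2]

/-- The distribution function at the lower end of a cylinder. -/
noncomputable def lo (T : E) {n : ℕ} (w : Fin n → Bool) : ℝ := cdfOf (rc T) (cf (ext0 w))
/-- The distribution function at the upper end of a cylinder. -/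
noncomputable def hi (T : E) {n : ℕ} (w : Fin n → Bool) : ℝ := cdfOf (rc T) (cf (ext1 w))

theorem lo_mem (T : E) {n : ℕ} (w : Fin n → Bool) : lo T w ∈ Icc (0:ℝ) 1 :=
  ⟨cdfOf_nonneg _, cdfOf_le_one (rc_measurable T) _⟩

theorem hi_mem (T : E) {n : ℕ} (w : Fin n → Bool) : hi T w ∈ Icc (0:ℝ) 1 :=
  ⟨cdfOf_nonneg _, cdfOf_le_one (rc_measurable T) _⟩

theorem rk_mem_cyl (T : E) {n : ℕ} {w : Fin n → Bool} {y : ℝ}
    (h : ∀ j : Fin n, code T y j = w j) : rk (rc T) y ∈ Icc (lo T w) (hi T w) :=
  ⟨cdfOf_mono (rc_measurable T) (cf_ext0_le h), cdfOf_mono (rc_measurable T) (le_cf_ext1 h)⟩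

theorem cyl_disjoint (T : E) {n : ℕ} {w w' : Fin n → Bool} (h : w ≠ w') :
    hi T w ≤ lo T w' ∨ hi T w' ≤ lo T w := by
  rcases cf_disjoint h with h1 | h1
  · left; exact cdfOf_mono (rc_measurable T) h1.le
  · right; exact cdfOf_mono (rc_measurable T) h1.le

theorem cyl_width (T : E) {n : ℕ} (w : Fin n → Bool) :
    hi T w - lo T w ≤ (lam {y | ∀ j : Fin n, code T y j = w j}).toReal := by
  have h0 : cf (ext0 w) ≤ cf (ext1 w) :=
    cf_ext0_le (x := ext1 w) (fun j => by simp [ext1])
  have hp := law_isProb (rc_measurable T)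
  unfold hi lo
  rw [cdfOf_sub (rc_measurable T) h0]
  apply ENNReal.toReal_mono (measure_ne_top _ _)
  unfold law
  rw [Measure.map_apply (rc_measurable T) measurableSet_Ioc]
  apply measure_mono
  intro y hy
  exact agree_of_mem (Ioc_subset_Icc_self hy)

/-- The number of bits needed to resolve a point up to `1/(k+1)`. -/
noncomputable def res (k : ℕ) : ℕ :=
  (Finset.range (k + 2)).sup (fun i => nu.symm (0, (i : ℚ) / ((k : ℚ) + 1))) + 1

theorem lt_res {k i : ℕ} (hi : i < k + 2) : nu.symm (0, (i : ℚ) / ((k : ℚ) + 1)) < res k := by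
  unfold res
  apply Nat.lt_succ_of_le
  exact Finset.le_sup (f := fun i : ℕ => nu.symm (0, (i : ℚ) / ((k : ℚ) + 1)))
    (Finset.mem_range.mpr hi)

theorem resolve (T : E) {k n : ℕ} (hn : res k ≤ n) {y z : ℝ} (_hy : y ∈ Icc (0:ℝ) 1)
    (hz : z ∈ Icc (0:ℝ) 1) (h : ∀ j : Fin n, code T y j = code T z j) :
    y - z ≤ 1 / ((k : ℝ) + 1) := by
  have hk : (0:ℝ) < (k:ℝ) + 1 := by positivity
  have h1 : ∀ i < k + 2, (y ≤ (i : ℝ) / ((k : ℝ) + 1) ↔ z ≤ (i : ℝ) / ((k : ℝ) + 1)) := by
    intro i hi
    have hj : nu.symm (0, (i : ℚ) / ((k : ℚ) + 1)) < n := lt_of_lt_of_le (lt_res hi) hn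
    have := h ⟨_, hj⟩
    simp only [code, Equiv.apply_symm_apply, itr_zero, decide_eq_decide] at this
    push_cast at this
    exact this
  -- let i be the floor of (k+1) z, plus one
  set i := ⌈((k:ℝ) + 1) * z⌉₊ with hi
  have hz0 : 0 ≤ ((k:ℝ) + 1) * z := mul_nonneg hk.le hz.1
  have hi1 : ((k:ℝ) + 1) * z ≤ i := Nat.le_ceil _
  have hi2 : (i:ℝ) < ((k:ℝ) + 1) * z + 1 := Nat.ceil_lt_add_one hz0
  have hik : i < k + 2 := by
    have : (i:ℝ) < (k:ℝ) + 2 := by nlinarith [hz.2]
    exact_mod_cast this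
  have hzi : z ≤ (i:ℝ) / ((k:ℝ) + 1) := by
    rw [le_div_iff₀ hk]; linarith
  have hyi := (h1 i hik).mpr hzi
  have h3 : (i:ℝ) / ((k:ℝ) + 1) < z + 1 / ((k:ℝ) + 1) := by
    rw [div_lt_iff₀ hk]
    have : (z + 1 / ((k:ℝ) + 1)) * ((k:ℝ) + 1) = ((k:ℝ) + 1) * z + 1 := by
      field_simp
    rw [this]
    exact hi2
  linarith

theorem cyl_small (T : E) {k n : ℕ} (hn : res k ≤ n) (w : Fin n → Bool) :
    (lam {y | ∀ j : Fin n, code T y j = w j}).toReal ≤ 1 / ((k : ℝ) + 1) := by
  have hk : (0:ℝ) < (k:ℝ) + 1 := by positivity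
  set s : Set ℝ := {y | ∀ j : Fin n, code T y j = w j} with hs
  have hsm : MeasurableSet s := by
    have : s = ⋂ j : Fin n, {y | code T y j = w j} := by
      ext y; simp [hs]
    rw [this]
    exact MeasurableSet.iInter (fun j => measurable_code T j (measurableSet_singleton (w j)))
  have h1 : lam s = volume (s ∩ Icc (0:ℝ) 1) := Measure.restrict_apply hsm
  have h2 : volume (s ∩ Icc (0:ℝ) 1) ≤ ENNReal.ofReal (1 / ((k : ℝ) + 1)) := by
    refine (Real.volume_le_diam _).trans ?_
    apply Metric.ediam_le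
    intro x hx y hy
    rw [edist_dist, Real.dist_eq]
    apply ENNReal.ofReal_le_ofReal
    rw [abs_le]
    have hxy : ∀ j : Fin n, code T x j = code T y j := fun j => (hx.1 j).trans (hy.1 j).symm
    have a1 := resolve T hn hx.2 hy.2 hxy
    have a2 := resolve T hn hy.2 hx.2 (fun j => (hxy j).symm)
    constructor <;> linarith
  rw [h1]
  have := ENNReal.toReal_mono ENNReal.ofReal_ne_top h2
  rwa [ENNReal.toReal_ofReal (by positivity)] at this

end Pool.Agent.H63.Conj
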