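import Pool.Agent.H63.Conj.Metric

set_option autoImplicit false
open MeasureTheory Set Filter Topology
open scoped ENNReal

namespace Pool.Agent.H63.Conj

/-- The inverse automorphism. -/
def inv (e : E) : E := ⟨e.1.symm, e.2.symm⟩

/-- An automorphism as an element of `L¹`. -/
noncomputable def toL1 (e : E) : Lp ℝ 1 lam := (memLp_of_mp e.2).toLp (e.1 : ℝ → ℝ)

/-- The pair of an automorphism and its inverse. -/
noncomputable def Phi (e : E) : Lp ℝ 1 lam × Lp ℝ 1 lam := (toL1 e, toL1 (inv e))

theorem toL1_coe (e : E) : (toL1 e : ℝ → ℝ) =ᵐ[lam] e.1 := (memLp_of_mp e.2).coeFn_toLp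

theorem isClosed_range_Phi : IsClosed (range Phi) := by
  rw [← isSeqClosed_iff_isClosed]
  intro u p hu hup
  choose e he using hu
  set f : ℝ → ℝ := (Lp.aestronglyMeasurable p.1).mk p.1 with hf
  set g : ℝ → ℝ := (Lp.aestronglyMeasurable p.2).mk p.2 with hg
  have hfm : Measurable f := ((Lp.aestronglyMeasurable p.1).stronglyMeasurable_mk).measurable
  have hgm : Measurable g := ((Lp.aestronglyMeasurable p.2).stronglyMeasurable_mk).measurable
  have hfe : (p.1 : ℝ → ℝ) =ᵐ[lam] f := (Lp.aestronglyMeasurable p.1).ae_eq_mk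
  have hge : (p.2 : ℝ → ℝ) =ᵐ[lam] g := (Lp.aestronglyMeasurable p.2).ae_eq_mk
  have h1 : Tendsto (fun n => toL1 (e n)) atTop (𝓝 p.1) := by
    have := (continuous_fst.tendsto p).comp hup
    refine this.congr (fun n => ?_)
    simp only [Function.comp, ← he n, Phi]
  have h2 : Tendsto (fun n => toL1 (inv (e n))) atTop (𝓝 p.2) := by
    have := (continuous_snd.tendsto p).comp hup
    refine this.congr (fun n => ?_)
    simp only [Function.comp, ← he n, Phi]
  have h1' : Tendsto (fun n => eLpNorm (fun x => (e n).1 x - f x) 1 lam) atTop (𝓝 0) := by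
    rw [Lp.tendsto_Lp_iff_tendsto_eLpNorm'] at h1
    refine h1.congr (fun n => ?_)
    apply eLpNorm_congr_ae
    filter_upwards [toL1_coe (e n), hfe] with x hx hx2
    simp only [Pi.sub_apply, hx, hx2]
  have h2' : Tendsto (fun n => eLpNorm (fun x => (inv (e n)).1 x - g x) 1 lam) atTop (𝓝 0) := by
    rw [Lp.tendsto_Lp_iff_tendsto_eLpNorm'] at h2
    refine h2.congr (fun n => ?_)
    apply eLpNorm_congr_ae
    filter_upwards [toL1_coe (inv (e n)), hge] with x hx hx2
    simp only [Pi.sub_apply, hx, hx2]
  have hfmp : MeasurePreserving f lam lam := mp_of_tendsto (fun n => (e n).2) hfm h1'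
  have hgmp : MeasurePreserving g lam lam := mp_of_tendsto (fun n => (inv (e n)).2) hgm h2'
  -- composition is the identity
  have key : ∀ (a b : ℕ → E) (f g : ℝ → ℝ), MeasurePreserving f lam lam →
      MeasurePreserving g lam lam → (∀ n x, (b n).1 ((a n).1 x) = x) →
      Tendsto (fun n => eLpNorm (fun x => (a n).1 x - f x) 1 lam) atTop (𝓝 0) →
      Tendsto (fun n => eLpNorm (fun x => (b n).1 x - g x) 1 lam) atTop (𝓝 0) →
      ∀ᵐ x ∂lam, g (f x) = x := by
    intro a b f g hf hg hab ha hb
    have k1 := tendsto_comp (fun n => (a n).2) hf (memLp_of_mp hg) ha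
    have k2 : Tendsto (fun n => eLpNorm (fun x => x - g ((a n).1 x)) 1 lam) atTop (𝓝 0) := by
      refine hb.congr (fun n => ?_)
      have hm : AEStronglyMeasurable (fun x => (b n).1 x - g x) lam :=
        ((b n).2.measurable.sub hg.measurable).aestronglyMeasurable
      rw [← eLpNorm_comp_measurePreserving hm (a n).2]
      congr 1
      funext x
      simp only [Function.comp, hab]
    have k3 : eLpNorm (fun x => x - g (f x)) 1 lam = 0 := by
      have k4 : ∀ n, eLpNorm (fun x => x - g (f x)) 1 lam ≤
          eLpNorm (fun x => x - g ((a n).1 x)) 1 lam +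
          eLpNorm (fun x => g ((a n).1 x) - g (f x)) 1 lam := by
        intro n
        have : (fun x => x - g (f x)) = (fun x => x - g ((a n).1 x)) +
          (fun x => g ((a n).1 x) - g (f x)) := by
          funext x
          simp
        rw [this]
        refine eLpNorm_add_le ?_ ?_ (le_refl 1)
        · exact (measurable_id.sub (hg.measurable.comp (a n).2.measurable)).aestronglyMeasurable
        · exact ((hg.measurable.comp (a n).2.measurable).sub
            (hg.measurable.comp hf.measurable)).aestronglyMeasurable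
      have k5 : Tendsto (fun n => eLpNorm (fun x => x - g ((a n).1 x)) 1 lam +
          eLpNorm (fun x => g ((a n).1 x) - g (f x)) 1 lam) atTop (𝓝 (0 + 0)) := k2.add k1
      rw [add_zero] at k5
      exact le_antisymm (ge_of_tendsto' k5 k4) bot_le
    rw [eLpNorm_eq_zero_iff _ (by simp)] at k3
    · filter_upwards [k3] with x hx
      simp only [Pi.zero_apply] at hx
      linarith
    · exact (measurable_id.sub (hg.measurable.comp hf.measurable)).aestronglyMeasurable
  have hgf : ∀ᵐ x ∂lam, g (f x) = x :=
    key e (fun n => inv (e n)) f g hfmp hgmp (fun n x => (e n).1.symm_apply_apply x) h1' h2'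
  have hfg : ∀ᵐ x ∂lam, f (g x) = x :=
    key (fun n => inv (e n)) e g f hgmp hfmp (fun n x => (e n).1.apply_symm_apply x) h2' h1'
  have hAm : MeasurableSet {x | g (f x) = x} :=
    measurableSet_eq_fun (hgm.comp hfm) measurable_id
  obtain ⟨s, hs⟩ := exists_equiv_of_injOn f hfmp {x | g (f x) = x} hAm hgf (by
    intro x hx y hy hxy
    have hx' : g (f x) = x := hx
    have hy' : g (f y) = y := hy
    rw [← hx', ← hy', hxy])
  have hs2 : (s.1.symm : ℝ → ℝ) =ᵐ[lam] g := by
    -- s (g x) = f (g x) = x
    have h3 : ∀ᵐ x ∂lam, s.1 (g x) = f (g x) := hgmp.quasiMeasurePreserving.ae hs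
    filter_upwards [h3, hfg] with x hx hx2
    rw [s.1.symm_apply_eq, hx, hx2]
  refine ⟨s, ?_⟩
  apply Prod.ext
  · apply Lp.ext
    exact ((toL1_coe s).trans hs).trans hfe.symm
  · apply Lp.ext
    exact ((toL1_coe (inv s)).trans hs2).trans hge.symm

/-- The complete pseudometric on automorphisms. -/
@[reducible] noncomputable def pm : PseudoMetricSpace E := PseudoMetricSpace.induced Phi inferInstance

theorem pm_complete : @CompleteSpace E pm.toUniformSpace := by
  letI := pm
  have h : IsUniformInducing Phi := ⟨rfl⟩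
  exact h.completeSpace isClosed_range_Phi.isComplete

theorem pm_isUniformInducing : @IsUniformInducing E _ pm.toUniformSpace _ Phi := by
  letI := pm
  exact ⟨rfl⟩

end Pool.Agent.H63.Conj
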