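import Pool.Agent.H63.Conj.Rep

set_option autoImplicit false
open MeasureTheory Set Filter Topology
open scoped ENNReal

namespace Pool.Agent.H63.Conj

/-- Uniformly continuous bounded functions have an affine modulus of continuity up to `η`. -/
theorem exists_affine_modulus {h : ℝ → ℝ} (hc : Continuous h) (hs : HasCompactSupport h)
    {η : ℝ} (hη : 0 < η) : ∃ C : ℝ, 0 ≤ C ∧ ∀ s t : ℝ, |h s - h t| ≤ η + C * |s - t| := by
  obtain ⟨M, hM⟩ : ∃ M, ∀ x, ‖h x‖ ≤ M := hs.exists_bound_of_continuous hc
  have hu : UniformContinuous h := hs.uniformContinuous_of_continuous hc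
  obtain ⟨δ, hδ, hδh⟩ := Metric.uniformContinuous_iff.mp hu η hη
  have hM0 : 0 ≤ M := le_trans (norm_nonneg _) (hM 0)
  refine ⟨2 * M / δ, by positivity, ?_⟩
  intro s t
  by_cases hst : dist s t < δ
  · have := hδh hst
    rw [Real.dist_eq] at this
    have h2 : 0 ≤ 2 * M / δ * |s - t| := by positivity
    linarith
  · rw [Real.dist_eq] at hst
    have hst' : δ ≤ |s - t| := not_lt.mp hst
    have h1 : |h s - h t| ≤ 2 * M := by
      calc |h s - h t| ≤ |h s| + |h t| := abs_sub _ _
        _ ≤ M + M := add_le_add (hM s) (hM t)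
        _ = 2 * M := by ring
    have h2 : 2 * M ≤ 2 * M / δ * |s - t| := by
      rw [div_mul_eq_mul_div, le_div_iff₀ hδ]
      exact mul_le_mul_of_nonneg_left hst' (by positivity)
    linarith

theorem tendsto_comp {ι : Type*} {l : Filter ι} {f : ι → ℝ → ℝ} {f0 : ℝ → ℝ} {g : ℝ → ℝ}
    (hf : ∀ i, MeasurePreserving (f i) lam lam) (hf0 : MeasurePreserving f0 lam lam)
    (hg : MemLp g 1 lam)
    (h : Tendsto (fun i => eLpNorm (fun x => f i x - f0 x) 1 lam) l (𝓝 0)) :
    Tendsto (fun i => eLpNorm (fun x => g (f i x) - g (f0 x)) 1 lam) l (𝓝 0) := by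
  rw [ENNReal.tendsto_nhds_zero]
  intro ε hε
  rcases eq_or_ne ε ∞ with hεt | hεt
  · subst hεt
    exact Eventually.of_forall (fun _ => le_top)
  have hε4 : ε / 4 ≠ 0 := (ENNReal.div_pos hε.ne' (by simp)).ne'
  obtain ⟨k, hks, hkε, hkc, hkm⟩ := hg.exists_hasCompactSupport_eLpNorm_sub_le (by simp) hε4
  have hη : 0 < (ε / 4).toReal := ENNReal.toReal_pos hε4 (by
    exact (ENNReal.div_lt_top hεt (by simp)).ne)
  obtain ⟨C, hC0, hC⟩ := exists_affine_modulus hkc hks hη
  have hCt : Tendsto (fun i => ENNReal.ofReal C * eLpNorm (fun x => f i x - f0 x) 1 lam) l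
      (𝓝 0) := by
    have := ENNReal.Tendsto.const_mul (a := ENNReal.ofReal C) h (Or.inr ENNReal.ofReal_ne_top)
    simpa using this
  filter_upwards [(ENNReal.tendsto_nhds_zero.mp hCt) (ε / 4) (pos_iff_ne_zero.mpr hε4)] with i hi
  have hkmeas : AEStronglyMeasurable k lam := hkm.1
  have hgk : AEStronglyMeasurable (g - k) lam := hg.1.sub hkm.1
  have hdiffm : AEStronglyMeasurable (fun x => f i x - f0 x) lam :=
    ((hf i).measurable.sub hf0.measurable).aestronglyMeasurable
  have e1 : eLpNorm ((g - k) ∘ (f i)) 1 lam ≤ ε / 4 := by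
    rw [eLpNorm_comp_measurePreserving hgk (hf i)]
    exact hkε
  have e2 : eLpNorm ((g - k) ∘ f0) 1 lam ≤ ε / 4 := by
    rw [eLpNorm_comp_measurePreserving hgk hf0]
    exact hkε
  have m1 : AEStronglyMeasurable ((g - k) ∘ (f i)) lam := hgk.comp_measurePreserving (hf i)
  have m2 : AEStronglyMeasurable ((g - k) ∘ f0) lam := hgk.comp_measurePreserving hf0
  have m3 : AEStronglyMeasurable (fun x => k (f i x) - k (f0 x)) lam :=
    (hkc.measurable.comp (hf i).measurable).aestronglyMeasurable.sub
      (hkc.measurable.comp hf0.measurable).aestronglyMeasurable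
  have e3 : eLpNorm (fun x => k (f i x) - k (f0 x)) 1 lam ≤ ε / 4 + ε / 4 := by
    have h1 : eLpNorm (fun x => k (f i x) - k (f0 x)) 1 lam ≤
        eLpNorm ((fun _ : ℝ => (ε / 4).toReal) + (C • (fun x => ‖f i x - f0 x‖))) 1 lam := by
      apply eLpNorm_mono_real
      intro x
      simp only [Pi.add_apply, Pi.smul_apply, smul_eq_mul]
      exact hC (f i x) (f0 x)
    refine h1.trans ?_
    refine (eLpNorm_add_le aestronglyMeasurable_const ?_ (le_refl 1)).trans ?_
    · exact hdiffm.norm.const_smul C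
    · apply add_le_add
      · rw [eLpNorm_const _ (by simp) (IsProbabilityMeasure.ne_zero lam)]
        simp only [measure_univ, ENNReal.one_rpow, mul_one]
        rw [Real.enorm_of_nonneg hη.le, ENNReal.ofReal_toReal]
        exact (ENNReal.div_lt_top hεt (by simp)).ne
      · refine (eLpNorm_const_smul_le).trans ?_
        rw [Real.enorm_of_nonneg hC0, eLpNorm_norm]
        exact hi
  have hsplit : (fun x => g (f i x) - g (f0 x)) =
      (((g - k) ∘ (f i)) + (fun x => k (f i x) - k (f0 x))) - ((g - k) ∘ f0) := by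
    funext x
    simp only [Pi.sub_apply, Pi.add_apply, Function.comp]
    ring
  rw [hsplit]
  refine (eLpNorm_sub_le (m1.add m3) m2 (le_refl 1)).trans ?_
  refine (add_le_add (eLpNorm_add_le m1 m3 (le_refl 1)) le_rfl).trans ?_
  calc _ ≤ ε / 4 + (ε / 4 + ε / 4) + ε / 4 := add_le_add (add_le_add e1 e3) e2
    _ = ε := by
      rw [← ENNReal.toReal_eq_toReal_iff' ?_ hεt]
      · rw [ENNReal.toReal_add, ENNReal.toReal_add, ENNReal.toReal_add]
        · rw [ENNReal.toReal_div]
          simp
          ring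
        all_goals finiteness
      · finiteness

theorem memLp_of_mp {f : ℝ → ℝ} (hf : MeasurePreserving f lam lam) : MemLp f 1 lam := by
  have hid : MemLp (id : ℝ → ℝ) 1 lam := by
    rw [memLp_one_iff_integrable]
    exact continuous_id.integrableOn_Icc
  exact hid.comp_measurePreserving hf

/-- A strong limit of measure-preserving maps is measure preserving. -/
theorem mp_of_tendsto {f : ℕ → ℝ → ℝ} {f0 : ℝ → ℝ}
    (hf : ∀ i, MeasurePreserving (f i) lam lam) (hf0 : Measurable f0)
    (h : Tendsto (fun i => eLpNorm (fun x => f i x - f0 x) 1 lam) atTop (𝓝 0)) :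
    MeasurePreserving f0 lam lam := by
  refine ⟨hf0, ?_⟩
  have hp : IsProbabilityMeasure (lam.map f0) :=
    Measure.isProbabilityMeasure_map hf0.aemeasurable
  have hconv : TendstoInMeasure lam f atTop f0 :=
    tendstoInMeasure_of_tendsto_eLpNorm (by simp) (fun n => (hf n).measurable.aestronglyMeasurable)
      hf0.aestronglyMeasurable h
  obtain ⟨ns, hns, hae⟩ := hconv.exists_seq_tendsto_ae
  refine ext_of_forall_integral_eq_of_IsFiniteMeasure (fun k => ?_)
  rw [integral_map hf0.aemeasurable k.continuous.aestronglyMeasurable]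
  have h1 : Tendsto (fun n => ∫ x, k (f (ns n) x) ∂lam) atTop (𝓝 (∫ x, k (f0 x) ∂lam)) := by
    refine tendsto_integral_of_dominated_convergence (fun _ => ‖k‖) ?_ ?_ ?_ ?_
    · intro n
      exact (k.continuous.measurable.comp (hf (ns n)).measurable).aestronglyMeasurable
    · exact integrable_const _
    · intro n
      exact Eventually.of_forall (fun x => k.norm_coe_le_norm _)
    · filter_upwards [hae] with x hx
      exact (k.continuous.tendsto _).comp hx
  have h2 : (fun n => ∫ x, k (f (ns n) x) ∂lam) = fun _ => ∫ x, k x ∂lam := by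
    funext n
    have := integral_map (hf (ns n)).measurable.aemeasurable
      (f := fun x => k x) (k.continuous.aestronglyMeasurable (μ := lam.map (f (ns n))))
    rw [(hf (ns n)).map_eq] at this
    exact this.symm
  rw [h2] at h1
  exact tendsto_nhds_unique h1 tendsto_const_nhds

end Pool.Agent.H63.Conj
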