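import Pool.Agent.H63.Conj.Rep

set_option autoImplicit false
open MeasureTheory Set Filter Topology

namespace Pool.Agent.H63.Conj

/-- The law of a real function on the unit interval. -/
noncomputable def law (c : ℝ → ℝ) : Measure ℝ := lam.map c

/-- distribution function of the law. -/
noncomputable def cdfOf (c : ℝ → ℝ) (t : ℝ) : ℝ := (law c (Iic t)).toReal

/-- The rank map. -/
noncomputable def rk (c : ℝ → ℝ) (x : ℝ) : ℝ := cdfOf c (c x)

section
variable {c : ℝ → ℝ}

theorem law_isProb (hc : Measurable c) : IsProbabilityMeasure (law c) :=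
  Measure.isProbabilityMeasure_map hc.aemeasurable

theorem cdfOf_mono (hc : Measurable c) : Monotone (cdfOf c) := by
  intro s t hst
  have := law_isProb hc
  unfold cdfOf
  exact ENNReal.toReal_mono (measure_ne_top _ _) (measure_mono (Iic_subset_Iic.mpr hst))

theorem cdfOf_nonneg (t : ℝ) : 0 ≤ cdfOf c t := ENNReal.toReal_nonneg

theorem cdfOf_le_one (hc : Measurable c) (t : ℝ) : cdfOf c t ≤ 1 := by
  have := law_isProb hc
  unfold cdfOf
  have h := prob_le_one (μ := law c) (s := Iic t)
  have := ENNReal.toReal_mono (by simp) h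
  simpa using this

theorem cdfOf_sub (hc : Measurable c) {s t : ℝ} (hst : s ≤ t) :
    cdfOf c t - cdfOf c s = (law c (Ioc s t)).toReal := by
  have := law_isProb hc
  unfold cdfOf
  have h : Iic t = Iic s ∪ Ioc s t := (Iic_union_Ioc_eq_Iic hst).symm
  rw [h, measure_union _ measurableSet_Ioc, ENNReal.toReal_add (measure_ne_top _ _)
    (measure_ne_top _ _)]
  · ring
  · rw [Set.disjoint_left]
    intro x hx hx2
    exact absurd hx2.1 (not_lt.mpr hx)

theorem law_singleton (hc : Measurable c) (hinj : Function.Injective c) (t : ℝ) :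
    law c {t} = 0 := by
  unfold law
  rw [Measure.map_apply hc (measurableSet_singleton t)]
  have : (c ⁻¹' {t}).Subsingleton := by
    intro x hx y hy
    exact hinj ((mem_preimage.mp hx).trans (mem_preimage.mp hy).symm)
  exact this.measure_zero lam

theorem law_noAtoms (hc : Measurable c) (hinj : Function.Injective c) : NullSingletonClass (law c) :=
  ⟨law_singleton hc hinj⟩

theorem cdfOf_continuous (hc : Measurable c) (hinj : Function.Injective c) :
    Continuous (cdfOf c) := by
  have h1 := law_isProb hc
  have h2 := law_noAtoms hc hinj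
  have h3 : cdfOf c = ProbabilityTheory.cdf (law c) := by
    funext t
    rw [ProbabilityTheory.cdf_eq_real]
    rfl
  rw [continuous_iff_continuousAt]
  intro t
  rw [continuousAt_iff_continuous_left'_right']
  constructor
  · -- left continuity
    rw [(cdfOf_mono hc).continuousWithinAt_Iio_iff_leftLim_eq, h3]
    have h4 := (ProbabilityTheory.cdf (law c)).measure_singleton t
    rw [ProbabilityTheory.measure_cdf, law_singleton hc hinj] at h4
    have h5 := ENNReal.ofReal_eq_zero.mp h4.symm
    have h6 := (ProbabilityTheory.cdf (law c)).mono.leftLim_le (le_refl t)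
    linarith
  · rw [h3]
    exact ((ProbabilityTheory.cdf (law c)).right_continuous t).mono Ioi_subset_Ici_self

theorem cdfOf_tendsto_atTop (hc : Measurable c) : Tendsto (cdfOf c) atTop (𝓝 1) := by
  have h1 := law_isProb hc
  have h3 : cdfOf c = ProbabilityTheory.cdf (law c) := by
    funext t
    rw [ProbabilityTheory.cdf_eq_real]
    rfl
  rw [h3]
  exact ProbabilityTheory.tendsto_cdf_atTop (law c)

theorem cdfOf_tendsto_atBot (hc : Measurable c) : Tendsto (cdfOf c) atBot (𝓝 0) := by
  have h1 := law_isProb hc
  have h3 : cdfOf c = ProbabilityTheory.cdf (law c) := by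
    funext t
    rw [ProbabilityTheory.cdf_eq_real]
    rfl
  rw [h3]
  exact ProbabilityTheory.tendsto_cdf_atBot (law c)

theorem law_sublevel (hc : Measurable c) (hinj : Function.Injective c) {a : ℝ} (ha0 : 0 ≤ a)
    (ha1 : a < 1) : law c {u | cdfOf c u ≤ a} = ENNReal.ofReal a := by
  have h1 := law_isProb hc
  set S : Set ℝ := {u | cdfOf c u ≤ a} with hS
  have hmono := cdfOf_mono hc
  have hcont := cdfOf_continuous hc hinj
  have hclosed : IsClosed S := isClosed_le hcont continuous_const
  rcases S.eq_empty_or_nonempty with hem | hne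
  · rw [hem, measure_empty]
    have : a ≤ 0 := by
      refine le_of_tendsto_of_tendsto' tendsto_const_nhds (cdfOf_tendsto_atBot hc) ?_
      intro u
      by_contra hu
      have : u ∈ S := le_of_lt (not_le.mp hu)
      rw [hem] at this
      exact this
    rw [ENNReal.ofReal_eq_zero.mpr this]
  · have hbdd : BddAbove S := by
      have h2 : ∀ᶠ u in atTop, a < cdfOf c u := (cdfOf_tendsto_atTop hc).eventually_const_lt ha1
      obtain ⟨b, hb⟩ := h2.exists
      refine ⟨b, ?_⟩
      intro u hu
      by_contra hub
      have := hmono (le_of_lt (not_le.mp hub))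
      have hu' : cdfOf c u ≤ a := hu
      linarith
    set s := sSup S with hs
    have hsS : s ∈ S := hclosed.csSup_mem hne hbdd
    have hSeq : S = Iic s := by
      ext u
      constructor
      · intro hu
        exact le_csSup hbdd hu
      · intro hu
        exact le_trans (hmono hu) hsS
    have hFs : cdfOf c s = a := by
      apply le_antisymm hsS
      have h3 : Tendsto (cdfOf c) (𝓝[>] s) (𝓝 (cdfOf c s)) :=
        (hcont.tendsto s).mono_left nhdsWithin_le_nhds
      refine ge_of_tendsto h3 ?_
      filter_upwards [self_mem_nhdsWithin] with u hu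
      by_contra hcon
      have : u ∈ S := le_of_lt (not_le.mp hcon)
      rw [hSeq] at this
      exact absurd (mem_Ioi.mp hu) (not_lt.mpr (mem_Iic.mp this))
    rw [hSeq, ← hFs]
    unfold cdfOf
    rw [ENNReal.ofReal_toReal (measure_ne_top _ _)]

theorem rk_measurable (hc : Measurable c) : Measurable (rk c) :=
  (cdfOf_mono hc).measurable.comp hc

theorem rk_measurePreserving (hc : Measurable c) (hinj : Function.Injective c) :
    MeasurePreserving (rk c) lam lam := by
  have h1 := law_isProb hc
  refine ⟨rk_measurable hc, ?_⟩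
  have hprob : IsProbabilityMeasure (lam.map (rk c)) :=
    Measure.isProbabilityMeasure_map (rk_measurable hc).aemeasurable
  refine Measure.ext_of_Iic _ _ ?_
  intro a
  rw [Measure.map_apply (rk_measurable hc) measurableSet_Iic]
  have h2 : rk c ⁻¹' Iic a = c ⁻¹' {u | cdfOf c u ≤ a} := rfl
  have hm : MeasurableSet {u | cdfOf c u ≤ a} := (cdfOf_mono hc).measurable measurableSet_Iic
  rw [h2]
  have h3 : lam (c ⁻¹' {u | cdfOf c u ≤ a}) = law c {u | cdfOf c u ≤ a} := by
    unfold law
    rw [Measure.map_apply hc hm]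
  rw [h3]
  have h4 : lam (Iic a) = volume (Iic a ∩ Icc (0:ℝ) 1) := Measure.restrict_apply measurableSet_Iic
  rw [h4]
  rcases lt_or_ge a 0 with ha | ha
  · have h5 : {u | cdfOf c u ≤ a} = ∅ := by
      ext u
      simp only [mem_ofPred_eq, mem_empty_iff_false, iff_false, not_le]
      exact lt_of_lt_of_le ha (cdfOf_nonneg u)
    have h6 : Iic a ∩ Icc (0:ℝ) 1 = ∅ := by
      ext u
      simp only [mem_inter_iff, mem_Iic, mem_Icc, mem_empty_iff_false, iff_false]
      rintro ⟨h, h', _⟩
      linarith
    rw [h5, h6]
    simp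
  · rcases lt_or_ge a 1 with ha1 | ha1
    · rw [law_sublevel hc hinj ha ha1]
      have h6 : Iic a ∩ Icc (0:ℝ) 1 = Icc 0 a := by
        ext u
        simp only [mem_inter_iff, mem_Iic, mem_Icc]
        constructor
        · rintro ⟨h, h', _⟩
          exact ⟨h', h⟩
        · rintro ⟨h, h'⟩
          exact ⟨h', h, by linarith⟩
      rw [h6]
      simp
    · have h5 : {u | cdfOf c u ≤ a} = univ := by
        ext u
        simp only [mem_ofPred_eq, mem_univ, iff_true]
        exact le_trans (cdfOf_le_one hc u) ha1
      have h6 : Iic a ∩ Icc (0:ℝ) 1 = Icc 0 1 := by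
        ext u
        simp only [mem_inter_iff, mem_Iic, mem_Icc]
        constructor
        · rintro ⟨h, h'⟩
          exact h'
        · rintro ⟨h, h'⟩
          exact ⟨by linarith, h, h'⟩
      rw [h5, h6]
      simp

theorem rk_injOn (hc : Measurable c) (hinj : Function.Injective c) :
    ∃ A : Set ℝ, MeasurableSet A ∧ (∀ᵐ x ∂lam, x ∈ A) ∧ InjOn (rk c) A := by
  set L : Set ℝ := {t | ∃ x y, x ∈ (univ : Set ℝ) ∧ y ∈ (univ : Set ℝ) ∧ x < y ∧ cdfOf c x = t ∧
    cdfOf c y = t} with hL
  have hLc : L.Countable :=
    MonotoneOn.countable_setOfPred_two_preimages ((cdfOf_mono hc).monotoneOn univ)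
  refine ⟨(rk c) ⁻¹' Lᶜ, rk_measurable hc hLc.measurableSet.compl, ?_, ?_⟩
  · have h1 : ∀ᵐ t ∂lam, t ∈ Lᶜ := by
      have h0 : lam L = 0 := hLc.measure_zero lam
      exact compl_mem_ae_iff.mpr h0
    exact (rk_measurePreserving hc hinj).quasiMeasurePreserving.ae h1
  · intro x hx y hy hxy
    by_contra hne
    have hcne : c x ≠ c y := fun h => hne (hinj h)
    rcases lt_or_gt_of_ne hcne with h | h
    · exact hx ⟨c x, c y, trivial, trivial, h, rfl, hxy.symm⟩
    · exact hx ⟨c y, c x, trivial, trivial, h, hxy.symm, rfl⟩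

/-- The rank map is realised, up to a null set, by an automorphism. -/
theorem exists_rank_equiv (hc : Measurable c) (hinj : Function.Injective c) :
    ∃ e : E, (e.1 : ℝ → ℝ) =ᵐ[lam] rk c := by
  obtain ⟨A, hA, hAc, hAi⟩ := rk_injOn hc hinj
  exact exists_equiv_of_injOn (rk c) (rk_measurePreserving hc hinj) A hA hAc hAi

end

end Pool.Agent.H63.Conj
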