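import Mathlib

set_option autoImplicit false
open MeasureTheory Set Filter Topology

namespace Pool.Agent.H63.Conj

/-- Lebesgue measure on the unit interval, as a measure on the line. -/
noncomputable abbrev lam : Measure ℝ := volume.restrict (Set.Icc (0:ℝ) 1)

/-- The type of the frozen statement. -/
abbrev E : Type := {e : ℝ ≃ᵐ ℝ // MeasurePreserving (⇑e) (volume.restrict (Set.Icc (0:ℝ) 1))
          (volume.restrict (Set.Icc (0:ℝ) 1))}

instance : IsProbabilityMeasure lam := by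
  constructor
  simp [lam]

theorem ae_mem_Icc : ∀ᵐ x ∂lam, x ∈ Icc (0:ℝ) 1 := by
  exact ae_restrict_mem measurableSet_Icc

theorem not_countable_compl {s : Set ℝ} (hs : s ⊆ Icc (0:ℝ) 1) : ¬ Countable (↥(sᶜ : Set ℝ)) := by
  intro h
  have h1 : (sᶜ : Set ℝ).Countable := countable_coe_iff.mp h
  have h2 : (Ioi (1:ℝ)).Countable := by
    refine h1.mono ?_
    intro x hx hxs
    have := hs hxs
    simp only [mem_Icc, mem_Ioi] at this hx
    linarith [this.2]
  have h3 := h2.measure_zero volume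
  simp at h3

theorem exists_equiv_of_injOn (f : ℝ → ℝ) (hf : MeasurePreserving f lam lam) (A : Set ℝ)
    (hA : MeasurableSet A) (hAc : ∀ᵐ x ∂lam, x ∈ A) (hinj : InjOn f A) :
    ∃ e : E, (e.1 : ℝ → ℝ) =ᵐ[lam] f := by
  classical
  set A' : Set ℝ := A ∩ Icc 0 1 ∩ f ⁻¹' (Icc 0 1) with hA'
  have hA'm : MeasurableSet A' :=
    (hA.inter measurableSet_Icc).inter (hf.measurable measurableSet_Icc)
  have hA'c : ∀ᵐ x ∂lam, x ∈ A' := by
    have h3 : ∀ᵐ x ∂lam, f x ∈ Icc (0:ℝ) 1 := by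
      have := hf.quasiMeasurePreserving.ae ae_mem_Icc
      exact this
    filter_upwards [hAc, ae_mem_Icc, h3] with x h1 h2 h3
    exact ⟨⟨h1, h2⟩, h3⟩
  have : StandardBorelSpace A' := hA'm.standardBorel
  set g : A' → ℝ := fun x => f x with hg
  have hgm : Measurable g := hf.measurable.comp measurable_subtype_coe
  have hgi : Function.Injective g := by
    intro x y hxy
    exact Subtype.ext (hinj x.2.1.1 y.2.1.1 hxy)
  have hemb : MeasurableEmbedding g := hgm.measurableEmbedding hgi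
  have hB : MeasurableSet (range g) := hemb.measurableSet_range
  have hBsub : range g ⊆ Icc (0:ℝ) 1 := by
    rintro _ ⟨x, rfl⟩
    exact x.2.2
  have hAsub : A' ⊆ Icc (0:ℝ) 1 := fun x hx => hx.1.2
  have : StandardBorelSpace (↥(A'ᶜ : Set ℝ)) := hA'm.compl.standardBorel
  have : StandardBorelSpace (↥((range g)ᶜ : Set ℝ)) := hB.compl.standardBorel
  let e1 : A' ≃ᵐ range g := hemb.equivRange
  let e2 : (↥(A'ᶜ : Set ℝ)) ≃ᵐ (↥((range g)ᶜ : Set ℝ)) :=
    PolishSpace.measurableEquivOfNotCountable (not_countable_compl hAsub)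
      (not_countable_compl hBsub)
  let e : ℝ ≃ᵐ ℝ := ((MeasurableEquiv.sumCompl hA'm).symm.trans
    (MeasurableEquiv.sumCongr e1 e2)).trans (MeasurableEquiv.sumCompl hB)
  have he : ∀ x ∈ A', e x = f x := by
    intro x hx
    have : (MeasurableEquiv.sumCompl hA'm).symm x = Sum.inl ⟨x, hx⟩ := by
      rw [MeasurableEquiv.symm_apply_eq]
      rfl
    have h2 : (MeasurableEquiv.sumCongr e1 e2) (Sum.inl ⟨x, hx⟩) = Sum.inl (e1 ⟨x, hx⟩) := rfl
    have h3 : e1 ⟨x, hx⟩ = ⟨g ⟨x, hx⟩, mem_range_self _⟩ := hemb.equivRange_apply _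
    simp only [e, MeasurableEquiv.trans_apply, this, h2, h3]
    rfl
  have hae : (e : ℝ → ℝ) =ᵐ[lam] f := by
    filter_upwards [hA'c] with x hx
    exact he x hx
  refine ⟨⟨e, e.measurable, ?_⟩, hae⟩
  rw [Measure.map_congr hae]
  exact hf.map_eq

end Pool.Agent.H63.Conj
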