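import Pool.Agent.H63.Conj.Complete

set_option autoImplicit false
open MeasureTheory Set Filter Topology
open scoped ENNReal

namespace Pool.Agent.H63.Conj

/-- The weak topology of the frozen statement. -/
noncomputable abbrev tau : TopologicalSpace E :=
  ⨅ (A : Set ℝ) (_ : MeasurableSet A) (B : Set ℝ) (_ : MeasurableSet B),
            TopologicalSpace.induced
              (fun T : E => ((volume.restrict (Set.Icc (0:ℝ) 1)) ((⇑T.1) ⁻¹' A ∩ B)).toReal)
              (inferInstance : TopologicalSpace ℝ)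

theorem tau_continuous {A B : Set ℝ} (hA : MeasurableSet A) (hB : MeasurableSet B) :
    @Continuous E ℝ tau _ (fun T : E => (lam ((⇑T.1) ⁻¹' A ∩ B)).toReal) := by
  refine continuous_iInf_dom (i := A) ?_
  refine continuous_iInf_dom (i := hA) ?_
  refine continuous_iInf_dom (i := B) ?_
  refine continuous_iInf_dom (i := hB) ?_
  exact continuous_induced_dom

theorem memLp_ind {I : Set ℝ} (hI : MeasurableSet I) (T : E) :
    MemLp (fun x => I.indicator (fun _ => (1:ℝ)) (T.1 x)) 1 lam := by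
  have h : MemLp (I.indicator (fun _ => (1:ℝ))) 1 lam :=
    memLp_indicator_const 1 hI 1 (Or.inr (measure_ne_top _ _))
  exact h.comp_measurePreserving T.2

/-- The indicator of the preimage, in `L¹`. -/
noncomputable def ind {I : Set ℝ} (hI : MeasurableSet I) (T : E) : Lp ℝ 1 lam :=
  (memLp_ind hI T).toLp _

theorem measure_preim {I : Set ℝ} (hI : MeasurableSet I) (T : E) :
    lam ((⇑T.1) ⁻¹' I) = lam I := T.2.measure_preimage hI.nullMeasurableSet

theorem dist_ind {I : Set ℝ} (hI : MeasurableSet I) (S T : E) :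
    dist (ind hI S) (ind hI T) =
      2 * (lam I).toReal - 2 * (lam ((⇑S.1) ⁻¹' I ∩ (⇑T.1) ⁻¹' I)).toReal := by
  have hS : Integrable (fun x => I.indicator (fun _ => (1:ℝ)) (S.1 x)) lam :=
    memLp_one_iff_integrable.mp (memLp_ind hI S)
  have hT : Integrable (fun x => I.indicator (fun _ => (1:ℝ)) (T.1 x)) lam :=
    memLp_one_iff_integrable.mp (memLp_ind hI T)
  have h1 : dist (ind hI S) (ind hI T) = ∫ x, ‖I.indicator (fun _ => (1:ℝ)) (S.1 x) -
      I.indicator (fun _ => (1:ℝ)) (T.1 x)‖ ∂lam := by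
    rw [dist_eq_norm]
    unfold ind
    rw [← MemLp.toLp_sub]
    exact L1.norm_of_fun_eq_integral_norm (μ := lam) (hS.sub hT)
  rw [h1]
  have hSm : MeasurableSet ((⇑S.1) ⁻¹' I) := S.1.measurable hI
  have hTm : MeasurableSet ((⇑T.1) ⁻¹' I) := T.1.measurable hI
  have h2 : (fun x => ‖I.indicator (fun _ => (1:ℝ)) (S.1 x) -
      I.indicator (fun _ => (1:ℝ)) (T.1 x)‖) = fun x =>
      (((⇑S.1) ⁻¹' I).indicator (fun _ => (1:ℝ)) x + ((⇑T.1) ⁻¹' I).indicator (fun _ => (1:ℝ)) x) -
      2 * ((⇑S.1) ⁻¹' I ∩ (⇑T.1) ⁻¹' I).indicator (fun _ => (1:ℝ)) x := by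
    funext x
    by_cases h1 : S.1 x ∈ I <;> by_cases h2 : T.1 x ∈ I <;>
      simp [indicator, h1, h2] <;> norm_num
  have e1 : Integrable (((⇑S.1) ⁻¹' I).indicator (fun _ => (1:ℝ))) lam :=
    (integrable_const (1:ℝ)).indicator hSm
  have e2 : Integrable (((⇑T.1) ⁻¹' I).indicator (fun _ => (1:ℝ))) lam :=
    (integrable_const (1:ℝ)).indicator hTm
  have e3 : Integrable (((⇑S.1) ⁻¹' I ∩ (⇑T.1) ⁻¹' I).indicator (fun _ => (1:ℝ))) lam :=
    (integrable_const (1:ℝ)).indicator (hSm.inter hTm)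
  have e12 : Integrable (fun x => ((⇑S.1) ⁻¹' I).indicator (fun _ => (1:ℝ)) x +
      ((⇑T.1) ⁻¹' I).indicator (fun _ => (1:ℝ)) x) lam := e1.add e2
  rw [h2, integral_sub e12 (e3.const_mul 2), integral_add e1 e2, integral_const_mul]
  rw [integral_indicator_const _ hSm, integral_indicator_const _ hTm,
    integral_indicator_const _ (hSm.inter hTm)]
  simp only [smul_eq_mul, mul_one, Measure.real]
  rw [measure_preim hI S, measure_preim hI T]
  ring

theorem continuous_ind {I : Set ℝ} (hI : MeasurableSet I) :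
    @Continuous E _ tau _ (fun T => ind hI T) := by
  let _ : TopologicalSpace E := tau
  rw [continuous_iff_continuousAt]
  intro T0
  rw [ContinuousAt, tendsto_iff_dist_tendsto_zero]
  have h1 : (fun T : E => dist (ind hI T) (ind hI T0)) = fun T : E =>
      2 * (lam I).toReal - 2 * (lam ((⇑T.1) ⁻¹' I ∩ (⇑T0.1) ⁻¹' I)).toReal := by
    funext T
    exact dist_ind hI T T0
  have h2 := tau_continuous hI (T0.1.measurable hI)
  have h3 : Continuous (fun T : E =>
      2 * (lam I).toReal - 2 * (lam ((⇑T.1) ⁻¹' I ∩ (⇑T0.1) ⁻¹' I)).toReal) :=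
    continuous_const.sub (continuous_const.mul h2)
  rw [h1]
  have h4 := h3.tendsto T0
  simp only [inter_self, measure_preim hI T0, sub_self] at h4
  exact h4

theorem continuous_ind_inv {I : Set ℝ} (hI : MeasurableSet I) :
    @Continuous E _ tau _ (fun T => ind hI (inv T)) := by
  let _ : TopologicalSpace E := tau
  rw [continuous_iff_continuousAt]
  intro T0
  rw [ContinuousAt, tendsto_iff_dist_tendsto_zero]
  have hm : MeasurableSet ((⇑T0.1.symm) ⁻¹' I) := T0.1.symm.measurable hI
  have h1 : (fun T : E => dist (ind hI (inv T)) (ind hI (inv T0))) = fun T : E =>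
      2 * (lam I).toReal - 2 * (lam ((⇑T.1) ⁻¹' ((⇑T0.1.symm) ⁻¹' I) ∩ I)).toReal := by
    funext T
    rw [dist_ind hI (inv T) (inv T0)]
    congr 3
    have hm2 : MeasurableSet ((⇑(inv T).1) ⁻¹' I ∩ (⇑(inv T0).1) ⁻¹' I) :=
      ((inv T).1.measurable hI).inter ((inv T0).1.measurable hI)
    rw [← measure_preim hm2 T]
    congr 1
    ext x
    simp only [mem_preimage, mem_inter_iff, inv, MeasurableEquiv.symm_apply_apply]
    exact and_comm
  have h2 := tau_continuous hm hI
  have h3 : Continuous (fun T : E =>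
      2 * (lam I).toReal - 2 * (lam ((⇑T.1) ⁻¹' ((⇑T0.1.symm) ⁻¹' I) ∩ I)).toReal) :=
    continuous_const.sub (continuous_const.mul h2)
  rw [h1]
  have h4 := h3.tendsto T0
  have h5 : (⇑T0.1) ⁻¹' ((⇑T0.1.symm) ⁻¹' I) = I := by
    ext x
    simp
  simp only [h5, inter_self, sub_self] at h4
  exact h4

/-- The intervals of length `1/n`. -/
def cell (n i : ℕ) : Set ℝ := Ico ((i : ℝ) / n) (((i : ℝ) + 1) / n)

theorem measurableSet_cell (n i : ℕ) : MeasurableSet (cell n i) := measurableSet_Ico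

/-- The step approximation. -/
noncomputable def stepApprox (n : ℕ) (T : E) : Lp ℝ 1 lam :=
  ∑ i ∈ Finset.range (n + 1), ((i : ℝ) / n) • ind (measurableSet_cell n i) T

theorem ind_coe {I : Set ℝ} (hI : MeasurableSet I) (T : E) :
    (ind hI T : ℝ → ℝ) =ᵐ[lam] fun x => I.indicator (fun _ => (1:ℝ)) (T.1 x) :=
  (memLp_ind hI T).coeFn_toLp

theorem sum_cell {n : ℕ} (hn : 0 < n) {y : ℝ} (hy : y ∈ Icc (0:ℝ) 1) :
    |y - ∑ i ∈ Finset.range (n + 1), ((i : ℝ) / n) * (cell n i).indicator (fun _ => (1:ℝ)) y|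
      ≤ 1 / n := by
  have hn' : (0:ℝ) < n := Nat.cast_pos.mpr hn
  set j := ⌊(n:ℝ) * y⌋₊ with hj
  have hny : 0 ≤ (n:ℝ) * y := mul_nonneg hn'.le hy.1
  have hj1 : (j : ℝ) ≤ n * y := Nat.floor_le hny
  have hj2 : (n:ℝ) * y < j + 1 := Nat.lt_floor_add_one _
  have hjn : j ≤ n := by
    have : (j:ℝ) ≤ n := hj1.trans (by nlinarith [hy.2])
    exact_mod_cast this
  have hmem : ∀ i : ℕ, y ∈ cell n i ↔ i = j := by
    intro i
    simp only [cell, mem_Ico]
    rw [div_le_iff₀ hn', lt_div_iff₀ hn']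
    constructor
    · rintro ⟨h1, h2⟩
      have : ⌊(n:ℝ) * y⌋₊ = i := by
        rw [Nat.floor_eq_iff hny]
        constructor <;> nlinarith
      rw [hj, this]
    · rintro rfl
      constructor <;> nlinarith
  have hsum : ∑ i ∈ Finset.range (n + 1), ((i : ℝ) / n) *
      (cell n i).indicator (fun _ => (1:ℝ)) y = (j:ℝ) / n := by
    rw [Finset.sum_eq_single j]
    · have : y ∈ cell n j := (hmem j).mpr rfl
      rw [indicator_of_mem this, mul_one]
    · intro i _ hij
      have : y ∉ cell n i := fun h => hij ((hmem i).mp h)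
      rw [indicator_of_notMem this, mul_zero]
    · intro hj3
      exact absurd (Finset.mem_range.mpr (Nat.lt_succ_of_le hjn)) hj3
  rw [hsum]
  rw [abs_le]
  constructor
  · have : (j:ℝ) / n ≤ y := by rw [div_le_iff₀ hn']; linarith
    have h3 : 0 ≤ 1 / (n:ℝ) := by positivity
    linarith
  · have : y ≤ (j + 1 : ℝ) / n := by
      rw [le_div_iff₀ hn']; linarith
    rw [add_div] at this
    linarith

theorem ae_mem (T : E) : ∀ᵐ x ∂lam, T.1 x ∈ Icc (0:ℝ) 1 :=
  T.2.quasiMeasurePreserving.ae ae_mem_Icc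

theorem norm_toL1_sub_stepApprox {n : ℕ} (hn : 0 < n) (T : E) :
    ‖toL1 T - stepApprox n T‖ ≤ 1 / n := by
  have h : ∀ᵐ x ∂lam, ‖(toL1 T - stepApprox n T : Lp ℝ 1 lam) x‖ ≤ 1 / n := by
    have h1 := Lp.coeFn_sub (toL1 T) (stepApprox n T)
    have h2 : (stepApprox n T : ℝ → ℝ) =ᵐ[lam] fun x => ∑ i ∈ Finset.range (n + 1),
        ((i : ℝ) / n) * (cell n i).indicator (fun _ => (1:ℝ)) (T.1 x) := by
      unfold stepApprox
      have h3 : ∀ s : Finset ℕ, ((∑ i ∈ s, ((i : ℝ) / n) • ind (measurableSet_cell n i) T :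
          Lp ℝ 1 lam) : ℝ → ℝ) =ᵐ[lam] fun x => ∑ i ∈ s,
        ((i : ℝ) / n) * (cell n i).indicator (fun _ => (1:ℝ)) (T.1 x) := by
        intro s
        induction s using Finset.induction_on with
        | empty =>
          simp only [Finset.sum_empty]
          exact Lp.coeFn_zero ℝ 1 lam
        | insert a s ha ih =>
          rw [Finset.sum_insert ha]
          have h4 := Lp.coeFn_add (((a : ℝ) / n) • ind (measurableSet_cell n a) T)
            (∑ i ∈ s, ((i : ℝ) / n) • ind (measurableSet_cell n i) T)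
          have h5 := Lp.coeFn_smul ((a : ℝ) / n) (ind (measurableSet_cell n a) T)
          filter_upwards [ih, h4, h5, ind_coe (measurableSet_cell n a) T] with x e1 e2 e3 e4
          rw [e2, Pi.add_apply, e3, e1, Finset.sum_insert ha, Pi.smul_apply, e4, smul_eq_mul]
      exact h3 _
    filter_upwards [h1, h2, toL1_coe T, ae_mem T] with x e1 e2 e3 e4
    rw [e1, Pi.sub_apply, e2, e3, Real.norm_eq_abs]
    exact sum_cell hn e4
  have := Lp.norm_le_of_ae_bound (C := 1 / (n:ℝ)) (by positivity) h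
  simpa [measureUnivNNReal] using this

theorem continuous_toL1 : @Continuous E _ tau _ toL1 := by
  let _ : TopologicalSpace E := tau
  refine continuous_of_uniform_approx_of_continuous ?_
  intro u hu
  obtain ⟨ε, hε, hεu⟩ := Metric.mem_uniformity_dist.mp hu
  obtain ⟨n, hn⟩ := exists_nat_one_div_lt hε
  refine ⟨fun T => stepApprox (n + 1) T, ?_, ?_⟩
  · unfold stepApprox
    refine continuous_finsetSum _ (fun i _ => ?_)
    exact (continuous_ind (measurableSet_cell (n + 1) i)).const_smul ((i : ℝ) / ((n + 1 : ℕ) : ℝ))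
  · intro T
    apply hεu
    rw [dist_eq_norm]
    refine lt_of_le_of_lt (norm_toL1_sub_stepApprox (Nat.succ_pos n) T) ?_
    simpa using hn

theorem continuous_toL1_inv : @Continuous E _ tau _ (fun T => toL1 (inv T)) := by
  let _ : TopologicalSpace E := tau
  refine continuous_of_uniform_approx_of_continuous ?_
  intro u hu
  obtain ⟨ε, hε, hεu⟩ := Metric.mem_uniformity_dist.mp hu
  obtain ⟨n, hn⟩ := exists_nat_one_div_lt hε
  refine ⟨fun T => stepApprox (n + 1) (inv T), ?_, ?_⟩
  · unfold stepApprox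
    refine continuous_finsetSum _ (fun i _ => ?_)
    exact (continuous_ind_inv (measurableSet_cell (n + 1) i)).const_smul ((i : ℝ) / ((n + 1 : ℕ) : ℝ))
  · intro T
    apply hεu
    rw [dist_eq_norm]
    refine lt_of_le_of_lt (norm_toL1_sub_stepApprox (Nat.succ_pos n) (inv T)) ?_
    simpa using hn

theorem tau_le : tau ≤ pm.toUniformSpace.toTopologicalSpace := by
  have h : pm.toUniformSpace.toTopologicalSpace = TopologicalSpace.induced Phi inferInstance := rfl
  rw [h, ← continuous_iff_le_induced]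
  let _ : TopologicalSpace E := tau
  exact continuous_toL1.prodMk continuous_toL1_inv

theorem le_tau : pm.toUniformSpace.toTopologicalSpace ≤ tau := by
  refine le_iInf (fun A => le_iInf (fun hA => le_iInf (fun B => le_iInf (fun hB => ?_))))
  rw [← continuous_iff_le_induced]
  let := pm
  have hc : Continuous toL1 :=
    continuous_fst.comp pm_isUniformInducing.isInducing.continuous
  have hc2 : Continuous (fun T : E => ind hA T) := by
    rw [continuous_iff_continuousAt]
    intro T0
    rw [ContinuousAt]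
    unfold ind
    rw [Lp.tendsto_Lp_iff_tendsto_eLpNorm'']
    have h1 := hc.tendsto T0
    unfold toL1 at h1
    rw [Lp.tendsto_Lp_iff_tendsto_eLpNorm''] at h1
    exact tendsto_comp (fun T : E => T.2) T0.2
      (memLp_indicator_const 1 hA 1 (Or.inr (measure_ne_top _ _))) h1
  have hc3 : Continuous (fun T : E => ∫ x in B, ind hA T x ∂lam) :=
    (continuous_setIntegral B).comp hc2
  refine hc3.congr (fun T => ?_)
  have h2 : ∫ x in B, ind hA T x ∂lam = ∫ x in B, A.indicator (fun _ => (1:ℝ)) (T.1 x) ∂lam :=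
    integral_congr_ae (ae_restrict_of_ae (ind_coe hA T))
  rw [h2]
  have h3 : (fun x => A.indicator (fun _ => (1:ℝ)) (T.1 x)) =
    ((⇑T.1) ⁻¹' A).indicator (fun _ => (1:ℝ)) := rfl
  rw [h3, integral_indicator_const _ (T.1.measurable hA)]
  simp only [smul_eq_mul, mul_one, Measure.real]
  rw [Measure.restrict_apply (T.1.measurable hA)]

theorem tau_eq : tau = pm.toUniformSpace.toTopologicalSpace := le_antisymm tau_le le_tau

end Pool.Agent.H63.Conj
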