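import Pool.Agent.H63.Conj.Code
import Pool.Agent.H63.Conj.Topo

set_option autoImplicit false
open MeasureTheory Set Filter Topology
open scoped ENNReal

namespace Pool.Agent.H63.Conj

/-- Indicator of an open interval, as an element of `L¹`. -/
noncomputable def oo (p : ℝ × ℝ) : Lp ℝ 1 lam :=
  (memLp_indicator_const (E := ℝ) (s := Ioo p.1 p.2) 1 measurableSet_Ioo 1
    (Or.inr (measure_ne_top lam _))).toLp _

theorem dist_oo (p q : ℝ × ℝ) : dist (oo p) (oo q) ≤ |p.1 - q.1| + |p.2 - q.2| := by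
  have hp : Integrable ((Ioo p.1 p.2).indicator (fun _ => (1:ℝ))) lam :=
    (integrable_const (1:ℝ)).indicator measurableSet_Ioo
  have hq : Integrable ((Ioo q.1 q.2).indicator (fun _ => (1:ℝ))) lam :=
    (integrable_const (1:ℝ)).indicator measurableSet_Ioo
  have h1 : dist (oo p) (oo q) = ∫ x, ‖(Ioo p.1 p.2).indicator (fun _ => (1:ℝ)) x -
      (Ioo q.1 q.2).indicator (fun _ => (1:ℝ)) x‖ ∂lam := by
    rw [dist_eq_norm]
    unfold oo
    rw [← MemLp.toLp_sub]
    exact L1.norm_of_fun_eq_integral_norm (μ := lam) (hp.sub hq)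
  rw [h1]
  have hU : MeasurableSet (uIcc p.1 q.1 ∪ uIcc p.2 q.2) :=
    measurableSet_uIcc.union measurableSet_uIcc
  have h2 : ∫ x, ‖(Ioo p.1 p.2).indicator (fun _ => (1:ℝ)) x -
      (Ioo q.1 q.2).indicator (fun _ => (1:ℝ)) x‖ ∂lam ≤
      ∫ x, (uIcc p.1 q.1 ∪ uIcc p.2 q.2).indicator (fun _ => (1:ℝ)) x ∂lam := by
    apply integral_mono (hp.sub hq).norm ((integrable_const (1:ℝ)).indicator hU)
    intro x
    by_cases hx : x ∈ uIcc p.1 q.1 ∪ uIcc p.2 q.2
    · simp only [indicator_of_mem hx]
      by_cases a1 : x ∈ Ioo p.1 p.2 <;> by_cases a2 : x ∈ Ioo q.1 q.2 <;>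
        simp [indicator, a1, a2]
    · simp only [indicator_of_notMem hx]
      have hx' : x ∉ uIcc p.1 q.1 ∧ x ∉ uIcc p.2 q.2 := by
        constructor
        · exact fun h => hx (Or.inl h)
        · exact fun h => hx (Or.inr h)
      have key : x ∈ Ioo p.1 p.2 ↔ x ∈ Ioo q.1 q.2 := by
        rw [mem_uIcc, mem_uIcc] at hx'
        simp only [not_or, not_and, not_le] at hx'
        obtain ⟨⟨b1, b2⟩, b3, b4⟩ := hx'
        constructor
        · rintro ⟨c1, c2⟩
          refine ⟨b1 c1.le, ?_⟩
          by_contra hcon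
          exact absurd (b4 (not_lt.mp hcon)) (not_lt.mpr c2.le)
        · rintro ⟨c1, c2⟩
          refine ⟨b2 c1.le, ?_⟩
          by_contra hcon
          exact absurd (b3 (not_lt.mp hcon)) (not_lt.mpr c2.le)
      by_cases a1 : x ∈ Ioo p.1 p.2
      · have a2 := key.mp a1
        simp [indicator, a1, a2]
      · have a2 : x ∉ Ioo q.1 q.2 := fun h => a1 (key.mpr h)
        simp [indicator_of_notMem a1, indicator_of_notMem a2]
  refine h2.trans ?_
  rw [integral_indicator_const _ hU]
  simp only [smul_eq_mul, mul_one, Measure.real]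
  have h3 : lam (uIcc p.1 q.1 ∪ uIcc p.2 q.2) ≤
      ENNReal.ofReal (|p.1 - q.1|) + ENNReal.ofReal (|p.2 - q.2|) := by
    refine (Measure.restrict_apply_le _ _).trans ?_
    refine (measure_union_le _ _).trans ?_
    rw [Real.volume_interval, Real.volume_interval, abs_sub_comm q.1, abs_sub_comm q.2]
  rw [← ENNReal.ofReal_add (abs_nonneg _) (abs_nonneg _)] at h3
  have h4 := ENNReal.toReal_mono ENNReal.ofReal_ne_top h3
  rwa [ENNReal.toReal_ofReal (by positivity)] at h4

theorem continuous_oo : Continuous oo := by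
  rw [Metric.continuous_iff]
  intro q ε hε
  refine ⟨ε / 2, by positivity, ?_⟩
  intro p hp
  have h1 : |p.1 - q.1| < ε / 2 := by
    have : dist p.1 q.1 ≤ dist p q := le_max_left _ _
    rw [Real.dist_eq] at this
    linarith
  have h2 : |p.2 - q.2| < ε / 2 := by
    have : dist p.2 q.2 ≤ dist p q := le_max_right _ _
    rw [Real.dist_eq] at this
    linarith
  linarith [dist_oo p q]

/-- Parameters of step functions: endpoints and values. -/
abbrev Par (n : ℕ) : Type := (Fin n → Bool) → ((ℝ × ℝ) × ℝ)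

/-- The step function with given parameters. -/
noncomputable def stepL (n : ℕ) (p : Par n) : Lp ℝ 1 lam :=
  ∑ w : Fin n → Bool, (p w).2 • oo (p w).1

theorem continuous_stepL (n : ℕ) : Continuous (stepL n) := by
  unfold stepL
  refine continuous_finsetSum _ (fun w _ => ?_)
  have h1 : Continuous (fun p : Par n => (p w).2) := continuous_snd.comp (continuous_apply w)
  have h2 : Continuous (fun p : Par n => (p w).1) := continuous_fst.comp (continuous_apply w)
  exact h1.smul (continuous_oo.comp h2)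

/-- The compact set of parameters in the unit interval. -/
def parSet (n : ℕ) : Set (Par n) := Set.pi univ (fun _ => (Icc 0 1 ×ˢ Icc 0 1) ×ˢ Icc 0 1)

theorem isCompact_parSet (n : ℕ) : IsCompact (parSet n) :=
  isCompact_univ_pi (fun _ => (isCompact_Icc.prod isCompact_Icc).prod isCompact_Icc)

theorem stepL_coe (n : ℕ) (p : Par n) : (stepL n p : ℝ → ℝ) =ᵐ[lam] fun t =>
    ∑ w : Fin n → Bool, (p w).2 * (Ioo (p w).1.1 (p w).1.2).indicator (fun _ => (1:ℝ)) t := by
  unfold stepL
  have h3 : ∀ s : Finset (Fin n → Bool), ((∑ w ∈ s, (p w).2 • oo (p w).1 :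
      Lp ℝ 1 lam) : ℝ → ℝ) =ᵐ[lam] fun t => ∑ w ∈ s,
      (p w).2 * (Ioo (p w).1.1 (p w).1.2).indicator (fun _ => (1:ℝ)) t := by
    intro s
    induction s using Finset.induction_on with
    | empty =>
      simp only [Finset.sum_empty]
      exact Lp.coeFn_zero ℝ 1 lam
    | insert a s ha ih =>
      rw [Finset.sum_insert ha]
      have h4 := Lp.coeFn_add ((p a).2 • oo (p a).1) (∑ w ∈ s, (p w).2 • oo (p w).1)
      have h5 := Lp.coeFn_smul ((p a).2) (oo (p a).1)
      have h6 : (oo (p a).1 : ℝ → ℝ) =ᵐ[lam]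
        (Ioo (p a).1.1 (p a).1.2).indicator (fun _ => (1:ℝ)) := MemLp.coeFn_toLp _
      filter_upwards [ih, h4, h5, h6] with x e1 e2 e3 e4
      rw [e2, Pi.add_apply, e3, e1, Finset.sum_insert ha, Pi.smul_apply, e4, smul_eq_mul]
  exact h3 _

/-- The key estimate: after conjugation by the rank map, everything is close to a step
function with a controlled number of steps. -/
theorem conj_step (T e : E) (he : (e.1 : ℝ → ℝ) =ᵐ[lam] rk (rc T)) (T' : E) (σ : ℕ → ℕ)
    (hσ : ∀ x j, code T (T'.1 x) j = code T x (σ j)) (k n m : ℕ) (hn : res k ≤ n)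
    (hm : ∀ j < n, σ j < m) (S : E) (hS : ∀ t, S.1 t = e.1 (T'.1 (e.1.symm t))) :
    ∃ p ∈ parSet m, ‖toL1 S - stepL m p‖ ≤ 1 / ((k : ℝ) + 1) := by
  classical
  let v : (Fin m → Bool) → (Fin n → Bool) := fun w j => w ⟨σ j, hm j j.2⟩
  let p : Par m := fun w => ((lo T w, hi T w), lo T (v w))
  refine ⟨p, ?_, ?_⟩
  · intro w _
    exact ⟨⟨lo_mem T w, hi_mem T w⟩, lo_mem T (v w)⟩
  have hmain : ∀ᵐ t ∂lam, ‖(toL1 S - stepL m p : Lp ℝ 1 lam) t‖ ≤ 1 / ((k : ℝ) + 1) := by
    have h1 := Lp.coeFn_sub (toL1 S) (stepL m p)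
    have h2 := stepL_coe m p
    have h3 := toL1_coe S
    have h4 : ∀ᵐ t ∂lam, e.1 (e.1.symm t) = rk (rc T) (e.1.symm t) :=
      (inv e).2.quasiMeasurePreserving.ae he
    have h5 : ∀ᵐ t ∂lam, e.1 (T'.1 (e.1.symm t)) = rk (rc T) (T'.1 (e.1.symm t)) :=
      (T'.2.comp (inv e).2).quasiMeasurePreserving.ae he
    have h6 : ∀ᵐ t ∂lam, t ∉ (range (fun w : Fin m → Bool => lo T w) ∪
        range (fun w : Fin m → Bool => hi T w)) := by
      have hfin : ((range (fun w : Fin m → Bool => lo T w) ∪
        range (fun w : Fin m → Bool => hi T w))).Countable :=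
        ((finite_range _).union (finite_range _)).countable
      exact compl_mem_ae_iff.mpr (hfin.measure_zero lam)
    filter_upwards [h1, h2, h3, h4, h5, h6] with t e1 e2 e3 e4 e5 e6
    rw [e1, Pi.sub_apply, e2, e3, hS t, e5, Real.norm_eq_abs]
    set x := e.1.symm t with hx
    set w : Fin m → Bool := fun j => code T x j with hw
    have hwx : ∀ j : Fin m, code T x j = w j := fun j => rfl
    have ht : t = rk (rc T) x := by
      rw [← e4, hx, MeasurableEquiv.apply_symm_apply]
    have ht1 : t ∈ Icc (lo T w) (hi T w) := by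
      rw [ht]; exact rk_mem_cyl T hwx
    have ht2 : t ∈ Ioo (lo T w) (hi T w) := by
      refine ⟨lt_of_le_of_ne ht1.1 ?_, lt_of_le_of_ne ht1.2 ?_⟩
      · intro h
        exact e6 (Or.inl ⟨w, h⟩)
      · intro h
        exact e6 (Or.inr ⟨w, h.symm⟩)
    have hsum : ∑ w' : Fin m → Bool, (p w').2 *
        (Ioo (p w').1.1 (p w').1.2).indicator (fun _ => (1:ℝ)) t = lo T (v w) := by
      rw [Finset.sum_eq_single w]
      · simp only [p]
        rw [indicator_of_mem ht2, mul_one]
      · intro w' _ hne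
        simp only [p]
        have : t ∉ Ioo (lo T w') (hi T w') := by
          rintro ⟨c1, c2⟩
          rcases cyl_disjoint T hne with h | h
          · linarith [ht2.1]
          · linarith [ht2.2]
        rw [indicator_of_notMem this, mul_zero]
      · intro h
        exact absurd (Finset.mem_univ w) h
    rw [hsum]
    have hvx : ∀ j : Fin n, code T (T'.1 x) j = v w j := by
      intro j
      rw [hσ]
    have h7 := rk_mem_cyl T hvx
    have h8 := cyl_width T (v w)
    have h9 := cyl_small T hn (v w)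
    rw [abs_le]
    constructor
    · have : (0:ℝ) ≤ 1 / ((k:ℝ) + 1) := by positivity
      linarith [h7.1]
    · linarith [h7.2]
  have := Lp.norm_le_of_ae_bound (C := 1 / ((k:ℝ) + 1)) (by positivity) hmain
  simpa [measureUnivNNReal] using this

/-- The number of steps allowed at resolution `k`. -/
noncomputable def num (k : ℕ) : ℕ :=
  (Finset.range (res k)).sup (fun j => max (shift 1 j) (shift (-1) j)) + 1

theorem shift_lt_num {k j : ℕ} (hj : j < res k) : shift 1 j < num k ∧ shift (-1) j < num k := by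
  have h : max (shift 1 j) (shift (-1) j) ≤
      (Finset.range (res k)).sup (fun j => max (shift 1 j) (shift (-1) j)) :=
    Finset.le_sup (f := fun j => max (shift 1 j) (shift (-1) j)) (Finset.mem_range.mpr hj)
  unfold num
  constructor
  · exact Nat.lt_succ_of_le ((le_max_left _ _).trans h)
  · exact Nat.lt_succ_of_le ((le_max_right _ _).trans h)

/-- The universal family: at every resolution `1/(k+1)` the automorphism and its inverse are
close to a step function with a number of steps depending on `k` only. -/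
def K0 : Set E := {S | ∀ k : ℕ, (∃ p ∈ parSet (num k), ‖toL1 S - stepL (num k) p‖ ≤ 1 / ((k : ℝ) + 1))
  ∧ (∃ p ∈ parSet (num k), ‖toL1 (inv S) - stepL (num k) p‖ ≤ 1 / ((k : ℝ) + 1))}

/-- Every automorphism is conjugate to a member of the universal family. -/
theorem exists_conj (T : E) : ∃ R S : E, S ∈ K0 ∧ ∀ x, T.1 x = R.1.symm (S.1 (R.1 x)) := by
  obtain ⟨e, he⟩ := exists_rank_equiv (rc_measurable T) (rc_injective T)
  let S : E := ⟨(e.1.symm.trans T.1).trans e.1, (e.2.comp T.2).comp (inv e).2⟩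
  have hS : ∀ t, S.1 t = e.1 (T.1 (e.1.symm t)) := fun t => rfl
  have hSi : ∀ t, (inv S).1 t = e.1 ((inv T).1 (e.1.symm t)) := fun t => rfl
  refine ⟨e, S, ?_, ?_⟩
  · intro k
    constructor
    · exact conj_step T e he T (shift 1) (code_apply T) k (res k) (num k) (le_refl _)
        (fun j hj => (shift_lt_num hj).1) S hS
    · exact conj_step T e he (inv T) (shift (-1)) (code_symm_apply T) k (res k) (num k) (le_refl _)
        (fun j hj => (shift_lt_num hj).2) (inv S) hSi
  · intro x
    rw [hS]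
    simp

theorem totallyBounded_of_approx {X : Type*} [PseudoMetricSpace X] {s : Set X}
    (h : ∀ ε > 0, ∃ t : Set X, TotallyBounded t ∧ ∀ x ∈ s, ∃ y ∈ t, dist x y ≤ ε) :
    TotallyBounded s := by
  rw [Metric.totallyBounded_iff]
  intro ε hε
  obtain ⟨t, ht, hst⟩ := h (ε / 2) (by positivity)
  obtain ⟨F, hF, htF⟩ := Metric.totallyBounded_iff.mp ht (ε / 2) (by positivity)
  refine ⟨F, hF, ?_⟩
  intro x hx
  obtain ⟨y, hy, hxy⟩ := hst x hx
  have := htF hy
  simp only [mem_iUnion, Metric.mem_ball] at this ⊢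
  obtain ⟨z, hz, hyz⟩ := this
  refine ⟨z, hz, ?_⟩
  calc dist x z ≤ dist x y + dist y z := dist_triangle _ _ _
    _ < ε := by linarith

theorem totallyBounded_K0 : @TotallyBounded E pm.toUniformSpace K0 := by
  let _ := pm
  rw [← totallyBounded_image_iff pm_isUniformInducing]
  apply totallyBounded_of_approx
  intro ε hε
  obtain ⟨k, hk⟩ := exists_nat_one_div_lt hε
  refine ⟨(stepL (num k) '' parSet (num k)) ×ˢ (stepL (num k) '' parSet (num k)), ?_, ?_⟩
  · have h1 : IsCompact (stepL (num k) '' parSet (num k)) :=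
      (isCompact_parSet _).image (continuous_stepL _)
    exact (h1.prod h1).totallyBounded
  · rintro _ ⟨S, hS, rfl⟩
    obtain ⟨⟨p, hp, hpS⟩, ⟨q, hq, hqS⟩⟩ := hS k
    refine ⟨(stepL (num k) p, stepL (num k) q), ⟨⟨p, hp, rfl⟩, ⟨q, hq, rfl⟩⟩, ?_⟩
    rw [Prod.dist_eq]
    apply max_le
    · rw [dist_eq_norm]
      exact hpS.trans hk.le
    · rw [dist_eq_norm]
      exact hqS.trans hk.le

/-- The universal compact set. -/
noncomputable def K : Set E := @closure E pm.toUniformSpace.toTopologicalSpace K0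

theorem isCompact_K : @IsCompact E tau K := by
  rw [tau_eq]
  let _ := pm
  have := pm_complete
  exact totallyBounded_K0.closure.isCompact_of_isClosed isClosed_closure

theorem univ_not_meagre : ¬ @IsMeagre E tau univ := by
  rw [tau_eq]
  let _ := pm
  have := pm_complete
  have : Nonempty E := ⟨⟨MeasurableEquiv.refl ℝ, MeasurePreserving.id _⟩⟩
  exact not_isMeagre_of_isOpen isOpen_univ univ_nonempty

end Pool.Agent.H63.Conj
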